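import Pool.Agent.ARC.StmtsU

/-!
# Squad ARC, row SYP: symplectic complement of a primitive vector
-/

set_option autoImplicit false

namespace Pool.Agent.ARC.H30

open scoped BigOperators

theorem syp : SypStmt := by
  intro g P Q hPQ
  obtain ⟨d, hd⟩ := (IsPrincipalIdealRing.principal
    (Ideal.span (Set.range (Sum.elim P Q : Fin g ⊕ Fin g → ℤ)))).principal
  have hd' : Ideal.span (Set.range (Sum.elim P Q : Fin g ⊕ Fin g → ℤ))
      = Ideal.span {((d.natAbs : ℕ) : ℤ)} := by
    rw [Int.span_natAbs, hd]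
  have hdiv : ∀ i, ∃ a : ℤ, a * ((d.natAbs : ℕ) : ℤ) = (Sum.elim P Q : Fin g ⊕ Fin g → ℤ) i := by
    intro i
    have h1 : (Sum.elim P Q : Fin g ⊕ Fin g → ℤ) i ∈ Ideal.span {((d.natAbs : ℕ) : ℤ)} := by
      rw [← hd']
      exact Ideal.subset_span ⟨i, rfl⟩
    exact Ideal.mem_span_singleton'.mp h1
  choose a ha using hdiv
  have hmem : ((d.natAbs : ℕ) : ℤ) ∈ Ideal.span (Set.range (Sum.elim P Q : Fin g ⊕ Fin g → ℤ)) := by
    rw [hd']
    exact Ideal.subset_span rfl
  obtain ⟨c, hc⟩ := Ideal.mem_span_range_iff_exists_fun.mp hmem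
  have hm0 : d.natAbs ≠ 0 := by
    intro h0
    apply hPQ
    constructor
    · funext i
      have h := ha (Sum.inl i)
      rw [h0] at h
      simpa using h.symm
    · funext i
      have h := ha (Sum.inr i)
      rw [h0] at h
      simpa using h.symm
  refine ⟨d.natAbs, fun i => a (Sum.inl i), fun i => a (Sum.inr i), fun i => - c (Sum.inr i),
    fun i => c (Sum.inl i), Nat.one_le_iff_ne_zero.mpr hm0, ?_, ?_, ?_⟩
  · intro i
    have h := ha (Sum.inl i)
    rw [mul_comm] at h
    exact h.symm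
  · intro i
    have h := ha (Sum.inr i)
    rw [mul_comm] at h
    exact h.symm
  · have hmz : ((d.natAbs : ℕ) : ℤ) ≠ 0 := by exact_mod_cast hm0
    have key : ((d.natAbs : ℕ) : ℤ) * ∑ i, (a (Sum.inl i) * c (Sum.inl i)
        - a (Sum.inr i) * (- c (Sum.inr i))) = ((d.natAbs : ℕ) : ℤ) * 1 := by
      rw [mul_one]
      conv_rhs => rw [← hc]
      rw [Fintype.sum_sum_type, ← Finset.sum_add_distrib, Finset.mul_sum]
      apply Finset.sum_congr rfl
      intro i _
      rw [← ha (Sum.inl i), ← ha (Sum.inr i)]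
      ring
    exact mul_left_cancel₀ hmz key

end Pool.Agent.ARC.H30
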